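import Pool.Agent.H564R3.RD.Defs

/-! Three factorials. -/

set_option autoImplicit false

namespace Pool.Agent.H564R3.RD

open Finset
open Pool.Agent.H564R3.PW (Instr runs exec syms)
open Pool.Agent.H564R3.TS

theorem RDG_step (x y : ℕ) (hyx : y ≤ x) : ∀ k, k ≤ y →
    x.factorial * y.factorial ≤ (x + k).factorial * (y - k).factorial := by
  intro k
  induction k with
  | zero => intro _; simp
  | succ k ih =>
    intro hk
    refine (ih (by omega)).trans ?_
    obtain ⟨z, hz⟩ : ∃ z, y - k = z + 1 := ⟨y - k - 1, by omega⟩
    have e1 : y - (k + 1) = z := by omega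
    rw [hz, e1, ← Nat.add_assoc, Nat.factorial_succ z, Nat.factorial_succ (x + k)]
    have h1 : z + 1 ≤ x + k + 1 := by omega
    calc (x + k).factorial * ((z + 1) * z.factorial) = (z + 1) * ((x + k).factorial * z.factorial) := by
          ring
      _ ≤ (x + k + 1) * ((x + k).factorial * z.factorial) := Nat.mul_le_mul_right _ h1
      _ = _ := by ring

theorem RDG_step2 (x y m : ℕ) (hx : x ≤ m) (hy : y ≤ m) (hm : m ≤ x + y) :
    x.factorial * y.factorial ≤ m.factorial * (x + y - m).factorial := by
  rcases le_total y x with h | h
  · have := RDG_step x y h (m - x) (by omega)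
    have e1 : x + (m - x) = m := by omega
    have e2 : y - (m - x) = x + y - m := by omega
    rwa [e1, e2] at this
  · have := RDG_step y x h (m - y) (by omega)
    have e1 : y + (m - y) = m := by omega
    have e2 : x - (m - y) = x + y - m := by omega
    rw [e1, e2] at this
    rw [mul_comm]
    exact this

theorem RDG_add (x y : ℕ) : x.factorial * y.factorial ≤ (x + y).factorial :=
  Nat.le_of_dvd (Nat.factorial_pos _) (Nat.factorial_mul_factorial_dvd_factorial_add x y)

theorem fact3 (N a b c : ℕ) (h : a + b + c = N) (ha : 2 * a ≤ N + 1) (hb : 2 * b ≤ N + 1)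
    (hc : 2 * c ≤ N + 1) :
    2 ^ N * (a.factorial * b.factorial * c.factorial) ≤ (N + 1) * N.factorial := by
  have key : a.factorial * b.factorial * c.factorial ≤
      (N / 2).factorial * (N - N / 2).factorial := by
    by_cases h1 : N - N / 2 ≤ b + c
    · have h2 := RDG_step2 b c (N - N / 2) (by omega) (by omega) h1
      have h3 := RDG_add a (b + c - (N - N / 2))
      have e : a + (b + c - (N - N / 2)) = N / 2 := by omega
      rw [e] at h3
      calc a.factorial * b.factorial * c.factorial = a.factorial * (b.factorial * c.factorial) := by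
            ring
        _ ≤ a.factorial * ((N - N / 2).factorial * (b + c - (N - N / 2)).factorial) :=
            Nat.mul_le_mul_left _ h2
        _ = (a.factorial * (b + c - (N - N / 2)).factorial) * (N - N / 2).factorial := by ring
        _ ≤ (N / 2).factorial * (N - N / 2).factorial := Nat.mul_le_mul_right _ h3
    · have h2 := RDG_add b c
      have e1 : a = N - N / 2 := by omega
      have e2 : b + c = N / 2 := by omega
      rw [e2] at h2
      rw [e1, mul_assoc, mul_comm]
      exact Nat.mul_le_mul_right _ h2
  have h1 : 2 ^ N ≤ (N + 1) * N.choose (N / 2) := by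
    rw [← Nat.sum_range_choose N]
    calc ∑ m ∈ Finset.range (N + 1), N.choose m ≤ ∑ m ∈ Finset.range (N + 1), N.choose (N / 2) :=
          Finset.sum_le_sum (fun m _ => Nat.choose_le_middle m N)
      _ = _ := by simp
  have h2 := Nat.choose_mul_factorial_mul_factorial (Nat.div_le_self N 2)
  calc 2 ^ N * (a.factorial * b.factorial * c.factorial)
      ≤ ((N + 1) * N.choose (N / 2)) * ((N / 2).factorial * (N - N / 2).factorial) :=
        Nat.mul_le_mul h1 key
    _ = (N + 1) * (N.choose (N / 2) * (N / 2).factorial * (N - N / 2).factorial) := by ring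
    _ = _ := by rw [h2]

end Pool.Agent.H564R3.RD
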