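import Pool.Agent.H564R3.RD.Defs
import Pool.Agent.H564R3.RD.Fact
import Pool.Agent.H564R3.EU.Gates
import Pool.Agent.H564R3.TS.Step

/-! Monomials of tours stopped at the same gate. -/

set_option autoImplicit false

namespace Pool.Agent.H564R3.RD

open Finset
open Pool.Agent.H564R3.PW (Instr runs exec syms)
open Pool.Agent.H564R3.TS

/-- the total weight of a monomial -/
def RDF_kap {n : ℕ} (K : Fin (n + 1) ⊕ Fin (n + 1) → ℕ)
    (u : Fin (n + 2) × Fin (n + 2) → ℕ) : ℕ := ∑ x, u x * (∑ e ∈ tsup x, K e)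

theorem RDF_kap_add {n : ℕ} (K : Fin (n + 1) ⊕ Fin (n + 1) → ℕ)
    (u v : Fin (n + 2) × Fin (n + 2) → ℕ) : RDF_kap K (u + v) = RDF_kap K u + RDF_kap K v := by
  unfold RDF_kap
  rw [← Finset.sum_add_distrib]
  refine Finset.sum_congr rfl (fun x _ => ?_)
  rw [Pi.add_apply, add_mul]

theorem RDF_kap_ind {n : ℕ} (K : Fin (n + 1) ⊕ Fin (n + 1) → ℕ)
    (Z : Finset (Fin (n + 2) × Fin (n + 2)))
    (hZ : ∀ x ∈ Z, ∀ y ∈ Z, x ≠ y → Disjoint (tsup x) (tsup y)) :
    RDF_kap K (ind Z) = ∑ e ∈ Z.biUnion tsup, K e := by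
  unfold RDF_kap ind
  rw [Finset.sum_biUnion (fun x hx y hy hxy => hZ x hx y hy hxy)]
  simp only [ite_mul, one_mul, zero_mul]
  rw [Finset.sum_ite_mem, Finset.univ_inter]

theorem RDF_sum_ind {X : Type} [Fintype X] [DecidableEq X] (Z : Finset X) :
    ∑ x, ind Z x = Z.card := by
  unfold ind
  rw [Finset.sum_ite_mem, Finset.univ_inter]
  simp

theorem RDF_ind_inj {X : Type} [DecidableEq X] {A B : Finset X} (h : ind A = ind B) : A = B := by
  ext x
  have h1 := congrFun h x
  unfold ind at h1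
  constructor
  · intro hx
    by_contra h2
    rw [if_pos hx, if_neg h2] at h1
    omega
  · intro hx
    by_contra h2
    rw [if_pos hx, if_neg h2] at h1
    omega

theorem tsp_gates {n : ℕ} {R ρ : Type} [Zero R] [DecidableEq ρ]
    (p : List (Instr R (Fin (n + 2) × Fin (n + 2)) ρ)) (o : ρ)
    (K : Fin (n + 1) ⊕ Fin (n + 1) → ℕ)
    (hK : ∀ P P' : Finset (Fin (n + 1) ⊕ Fin (n + 1)), ∑ e ∈ P, K e = ∑ e ∈ P', K e → P = P')
    (hbal : ∀ u ∈ syms p o, ∑ e, K e ≤ ∑ x, u x * (∑ e ∈ tsup x, K e))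
    (F : Finset (Finset (Fin (n + 2) × Fin (n + 2)))) (hF : F ⊆ (tours n).image arcs)
    (hmem : ∀ A ∈ F, ind A ∈ syms p o) (hn : 2 ≤ n) :
    2 ^ (n + 1) * F.card ≤ p.length * ((n + 2) * (n + 1).factorial) := by
  classical
  obtain ⟨g, y, hg⟩ := EU.gates p o (fun u => ∑ x, u x) (by simp)
    (fun a b => by simp [Finset.sum_add_distrib]) (fun x => by
      rw [Finset.sum_pi_single']
      simp) ((n + 2) / 2) (by omega)
  -- properties of the tours in `F`
  have hex : ∀ A ∈ F, Exact tsup 2 univ A := by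
    intro A hA
    obtain ⟨f, hf, rfl⟩ := Finset.mem_image.1 (hF hA)
    exact tsp_exact hf
  have hcard : ∀ A ∈ F, A.card = n + 1 := by
    intro A hA
    obtain ⟨f, hf, rfl⟩ := Finset.mem_image.1 (hF hA)
    exact (tsp_len f (fun _ => 0)).1
  have hmu : ∀ A ∈ F, (n + 2) / 2 < ∑ x, ind A x := by
    intro A hA
    rw [RDF_sum_ind, hcard A hA]
    omega
  have hsp : ∀ A ∈ F, ∃ Z : Fin 3 → Finset (Fin (n + 2) × Fin (n + 2)),
      (∀ k, y (ind A) k = ind (Z k)) ∧ (∀ k, Z k ⊆ A) ∧
      (Z 0).card + (Z 1).card + (Z 2).card = n + 1 := by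
    intro A hA
    obtain ⟨-, h2, -⟩ := hg (ind A) (hmem A hA) (hmu A hA)
    obtain ⟨Z, Z2, e1, e2, e3, e4⟩ := A_split h2
    obtain ⟨Z0, Z1, f1, f2, f3, f4⟩ := A_split e3.symm
    refine ⟨![Z0, Z1, Z2], ?_, ?_, ?_⟩
    · intro k
      fin_cases k
      · exact f3
      · exact f4
      · exact e4
    · intro k
      fin_cases k
      · show Z0 ⊆ A
        rw [e1, f1]
        exact fun x hx => Finset.mem_union_left _ (Finset.mem_union_left _ hx)
      · show Z1 ⊆ A
        rw [e1, f1]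
        exact fun x hx => Finset.mem_union_left _ (Finset.mem_union_right _ hx)
      · show Z2 ⊆ A
        rw [e1]
        exact fun x hx => Finset.mem_union_right _ hx
    · show Z0.card + Z1.card + Z2.card = n + 1
      rw [← hcard A hA, e1, Finset.card_union_of_disjoint e2, f1, Finset.card_union_of_disjoint f2]
  choose! Z hZy hZsub hZcard using hsp
  have hZex : ∀ A ∈ F, ∀ k, ∀ x ∈ Z A k, ∀ x' ∈ Z A k, x ≠ x' → Disjoint (tsup x) (tsup x') :=
    fun A hA k x hx x' hx' hne => (hex A hA).disj x (hZsub A hA k hx) x' (hZsub A hA k hx') hne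
  have hkapZ : ∀ A ∈ F, ∀ k, RDF_kap K (y (ind A) k) = ∑ e ∈ (Z A k).biUnion tsup, K e := by
    intro A hA k
    rw [hZy A hA k, RDF_kap_ind K _ (hZex A hA k)]
  have hkapA : ∀ A ∈ F, RDF_kap K (y (ind A) 0) + RDF_kap K (y (ind A) 1) +
      RDF_kap K (y (ind A) 2) = ∑ e, K e := by
    intro A hA
    obtain ⟨-, h2, -⟩ := hg (ind A) (hmem A hA) (hmu A hA)
    rw [← RDF_kap_add, ← RDF_kap_add, ← h2, RDF_kap_ind K A (hex A hA).disj]
    congr 1
    ext e
    simp only [Finset.mem_biUnion, Finset.mem_univ, iff_true]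
    exact (hex A hA).cover e (Finset.mem_univ e)
  -- the class of a gate
  have hclass : ∀ t, 2 ^ (n + 1) * (F.filter (fun A => g (ind A) = t)).card ≤
      (n + 2) * (n + 1).factorial := by
    intro t
    set Ft := F.filter (fun A => g (ind A) = t) with hFt
    rcases Ft.eq_empty_or_nonempty with h0 | ⟨A0, hA0⟩
    · rw [h0, Finset.card_empty, Nat.mul_zero]; exact Nat.zero_le _
    have hin : ∀ A ∈ Ft, A ∈ F := fun A hA => (Finset.mem_filter.1 hA).1
    have hgt : ∀ A ∈ Ft, g (ind A) = t := fun A hA => (Finset.mem_filter.1 hA).2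
    -- mixed monomials
    have hmix : ∀ A ∈ Ft, ∀ B ∈ Ft, ∀ C ∈ Ft, ∑ e, K e ≤ RDF_kap K (y (ind A) 0) +
        RDF_kap K (y (ind B) 1) + RDF_kap K (y (ind C) 2) := by
      intro A hA B hB C hC
      obtain ⟨-, -, -, -, -, h⟩ := hg (ind A) (hmem A (hin A hA)) (hmu A (hin A hA))
      have h1 := h (ind B) (hmem B (hin B hB)) (ind C) (hmem C (hin C hC)) (hmu B (hin B hB))
        (hmu C (hin C hC)) (by rw [hgt A hA, hgt B hB]) (by rw [hgt A hA, hgt C hC])
      have h2 := hbal _ h1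
      rw [← RDF_kap_add, ← RDF_kap_add]
      exact h2
    have heq : ∀ A ∈ Ft, ∀ k, RDF_kap K (y (ind A) k) = RDF_kap K (y (ind A0) k) := by
      intro A hA k
      have a1 := hkapA A (hin A hA)
      have a2 := hkapA A0 (hin A0 hA0)
      have b1 := hmix A hA A0 hA0 A0 hA0
      have b2 := hmix A0 hA0 A hA A hA
      have b3 := hmix A0 hA0 A hA A0 hA0
      have b4 := hmix A hA A0 hA0 A hA
      have b5 := hmix A0 hA0 A0 hA0 A hA
      have b6 := hmix A hA A hA A0 hA0
      fin_cases k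
      · show RDF_kap K (y (ind A) 0) = RDF_kap K (y (ind A0) 0)
        omega
      · show RDF_kap K (y (ind A) 1) = RDF_kap K (y (ind A0) 1)
        omega
      · show RDF_kap K (y (ind A) 2) = RDF_kap K (y (ind A0) 2)
        omega
    have hP : ∀ A ∈ Ft, ∀ k, (Z A k).biUnion tsup = (Z A0 k).biUnion tsup := by
      intro A hA k
      apply hK
      rw [← hkapZ A (hin A hA) k, ← hkapZ A0 (hin A0 hA0) k]
      exact heq A hA k
    have hG : ∀ k, (Ft.image (fun A => Z A k)).card ≤ ((Z A0 k).card).factorial := by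
      intro k
      apply tsp_count ((Z A0 k).biUnion tsup)
      · rw [Finset.card_biUnion (fun x hx x' hx' hne => hZex A0 (hin A0 hA0) k x hx x' hx' hne)]
        rw [Finset.sum_congr rfl (fun x hx => (hex A0 (hin A0 hA0)).card x
          (hZsub A0 (hin A0 hA0) k hx)), Finset.sum_const, smul_eq_mul, Nat.mul_comm]
      · intro B hB
        obtain ⟨A, hA, rfl⟩ := Finset.mem_image.1 hB
        refine ⟨?_, ?_, hZex A (hin A hA) k, ?_⟩
        · intro x hx
          exact (hex A (hin A hA)).card x (hZsub A (hin A hA) k hx)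
        · intro x hx
          rw [← hP A hA k]
          exact Finset.subset_biUnion_of_mem tsup hx
        · intro e he
          rw [← hP A hA k, Finset.mem_biUnion] at he
          exact he
    have hinj : Ft.card ≤ (Ft.image (fun A => Z A 0)).card * (Ft.image (fun A => Z A 1)).card *
        (Ft.image (fun A => Z A 2)).card := by
      rw [← Finset.card_product, ← Finset.card_product]
      apply Finset.card_le_card_of_injOn (fun A => ((Z A 0, Z A 1), Z A 2))
      · intro A hA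
        rw [Finset.mem_coe] at hA ⊢
        rw [Finset.mem_product, Finset.mem_product]
        exact ⟨⟨Finset.mem_image_of_mem (fun A => Z A 0) hA,
          Finset.mem_image_of_mem (fun A => Z A 1) hA⟩,
          Finset.mem_image_of_mem (fun A => Z A 2) hA⟩
      · intro A hA B hB hAB
        rw [Finset.mem_coe] at hA hB
        simp only [Prod.mk.injEq] at hAB
        obtain ⟨⟨c0, c1⟩, c2⟩ := hAB
        obtain ⟨-, h2, -⟩ := hg (ind A) (hmem A (hin A hA)) (hmu A (hin A hA))
        obtain ⟨-, h3, -⟩ := hg (ind B) (hmem B (hin B hB)) (hmu B (hin B hB))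
        apply RDF_ind_inj
        rw [h2, h3, hZy A (hin A hA) 0, hZy A (hin A hA) 1, hZy A (hin A hA) 2,
          hZy B (hin B hB) 0, hZy B (hin B hB) 1, hZy B (hin B hB) 2, c0, c1, c2]
    -- sizes
    have hs0 : ∀ k, ∑ x, y (ind A0) k x = (Z A0 k).card := by
      intro k
      rw [hZy A0 (hin A0 hA0) k, RDF_sum_ind]
    obtain ⟨-, -, h3, h4, h5, -⟩ := hg (ind A0) (hmem A0 (hin A0 hA0)) (hmu A0 (hin A0 hA0))
    simp only [hs0] at h3 h4 h5
    have h6 := hZcard A0 (hin A0 hA0)
    have h7 := fact3 (n + 1) _ _ _ h6 (by omega) (by omega) (by omega)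
    calc 2 ^ (n + 1) * Ft.card ≤ 2 ^ (n + 1) * ((Ft.image (fun A => Z A 0)).card *
          (Ft.image (fun A => Z A 1)).card * (Ft.image (fun A => Z A 2)).card) :=
          Nat.mul_le_mul_left _ hinj
      _ ≤ 2 ^ (n + 1) * (((Z A0 0).card).factorial * ((Z A0 1).card).factorial *
          ((Z A0 2).card).factorial) :=
          Nat.mul_le_mul_left _ (Nat.mul_le_mul (Nat.mul_le_mul (hG 0) (hG 1)) (hG 2))
      _ ≤ (n + 2) * (n + 1).factorial := h7
  have hfib : F.card = ∑ t ∈ Finset.range p.length, (F.filter (fun A => g (ind A) = t)).card := by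
    apply Finset.card_eq_sum_card_fiberwise
    intro A hA
    rw [Finset.mem_coe] at hA
    rw [Finset.mem_coe, Finset.mem_range]
    exact (hg (ind A) (hmem A hA) (hmu A hA)).1
  rw [hfib, Finset.mul_sum]
  refine (Finset.sum_le_sum (fun t _ => hclass t)).trans ?_
  rw [Finset.sum_const, Finset.card_range, smul_eq_mul]

end Pool.Agent.H564R3.RD
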