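import Pool.Agent.H564R3.RD.Defs
import Pool.Agent.H564R3.RD.Digits

/-! Weights for the test inputs. -/

set_option autoImplicit false

namespace Pool.Agent.H564R3.RD

open Finset
open Pool.Agent.H564R3.PW (Instr runs exec syms)
open Pool.Agent.H564R3.TS

theorem weights {X E : Type} [Fintype X] [DecidableEq X] [Fintype E] [DecidableEq E]
    (sup : X → Finset E) (r : ℕ) (hr : 1 ≤ r) :
    ∃ K : E → ℕ, (∀ P P' : Finset E, ∑ e ∈ P, K e = ∑ e ∈ P', K e → P = P') ∧
      ∀ A : Finset X, Exact sup r univ A → ∀ u : X → ℕ, (∀ x, x ∉ A → u x = 0) →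
        ∑ x, u x * (∑ e ∈ sup x, K e) = ∑ e, K e → u = ind A := by
  obtain ⟨K', b, hb, hbK, hsum, hind⟩ := digits (Fintype.card E) (Fintype.card E + 1)
  set e0 : E ≃ Fin (Fintype.card E) := Fintype.equivFin E with he0
  set K : E → ℕ := fun e => K' (e0 e) with hK
  have hsumK : ∑ e, K e = ∑ i, K' i := by
    rw [hK]
    exact Equiv.sum_comp e0 K'
  have hlin : ∀ c : E → ℤ, (∀ e, |c e| ≤ ((Fintype.card E + 1 : ℕ) : ℤ)) →
      ∑ e, c e * (K e : ℤ) = 0 → ∀ e, c e = 0 := by
    intro c hc h0 e
    have h1 := hind (fun i => c (e0.symm i)) (fun i => hc _) (by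
      rw [← h0, ← Equiv.sum_comp e0]
      refine Finset.sum_congr rfl (fun e _ => ?_)
      rw [Equiv.symm_apply_apply])
    have h2 := h1 (e0 e)
    simpa using h2
  refine ⟨K, ?_, ?_⟩
  · intro P P' h
    have h1 := hlin (fun e => (if e ∈ P then 1 else 0) - (if e ∈ P' then 1 else 0)) (by
      intro e
      have : (0 : ℤ) ≤ (Fintype.card E : ℤ) := Int.natCast_nonneg _
      rw [abs_le]
      push_cast
      split_ifs <;> constructor <;> omega) (by
      have h2 : ∀ Q : Finset E, ∑ e, (if e ∈ Q then (1 : ℤ) else 0) * (K e : ℤ) =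
          ((∑ e ∈ Q, K e : ℕ) : ℤ) := by
        intro Q
        push_cast
        simp only [ite_mul, one_mul, zero_mul]
        rw [Finset.sum_ite_mem, Finset.univ_inter]
      simp only [sub_mul]
      rw [Finset.sum_sub_distrib, h2, h2, h, sub_self])
    ext e
    have h2 := h1 e
    constructor
    · intro he
      rw [if_pos he] at h2
      by_contra h3
      rw [if_neg h3] at h2
      omega
    · intro he
      rw [if_pos he] at h2
      by_contra h3
      rw [if_neg h3] at h2
      omega
  · intro A hA u hu hW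
    have hcov : ∀ e, ∃ x ∈ A, e ∈ sup x := fun e => hA.cover e (Finset.mem_univ e)
    choose xe hxeA hxe using hcov
    have huniq : ∀ x ∈ A, ∀ e ∈ sup x, xe e = x := by
      intro x hx e he
      by_contra h1
      exact Finset.disjoint_left.1 (hA.disj (xe e) (hxeA e) x hx h1) (hxe e) he
    have hle : ∀ x ∈ A, u x ≤ Fintype.card E := by
      intro x hx
      have h1 : b ≤ ∑ e ∈ sup x, K e := by
        have h2 : 0 < (sup x).card := by rw [hA.card x hx]; omega
        obtain ⟨e, he⟩ := Finset.card_pos.1 h2
        exact (hbK (e0 e)).trans (Finset.single_le_sum (f := K) (fun _ _ => Nat.zero_le _) he)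
      have h2 : u x * (∑ e ∈ sup x, K e) ≤ ∑ e, K e := by
        rw [← hW]
        exact Finset.single_le_sum (f := fun x => u x * (∑ e ∈ sup x, K e))
          (fun _ _ => Nat.zero_le _) (Finset.mem_univ x)
      have h3 : u x * b < (Fintype.card E + 1) * b := by
        calc u x * b ≤ u x * (∑ e ∈ sup x, K e) := Nat.mul_le_mul_left _ h1
          _ ≤ ∑ e, K e := h2
          _ < (Fintype.card E + 1) * b := by rw [hsumK]; exact hsum
      have := Nat.lt_of_mul_lt_mul_right h3
      omega
    have hsplit : ∑ e, (u (xe e) : ℤ) * (K e : ℤ) = ((∑ e, K e : ℕ) : ℤ) := by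
      have h1 : (Finset.univ : Finset E) = A.biUnion sup := by
        ext e
        simp only [Finset.mem_univ, Finset.mem_biUnion, true_iff]
        exact ⟨xe e, hxeA e, hxe e⟩
      rw [← hW]
      push_cast
      rw [h1, Finset.sum_biUnion (fun x hx y hy hxy => hA.disj x hx y hy hxy)]
      have h2 : ∑ x, (u x : ℤ) * ∑ e ∈ sup x, (K e : ℤ) =
          ∑ x ∈ A, (u x : ℤ) * ∑ e ∈ sup x, (K e : ℤ) := by
        symm
        apply Finset.sum_subset (Finset.subset_univ _)
        intro x _ hx
        rw [hu x hx]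
        simp
      rw [h2]
      refine Finset.sum_congr rfl (fun x hx => ?_)
      rw [Finset.mul_sum]
      refine Finset.sum_congr rfl (fun e he => ?_)
      rw [huniq x hx e he]
    have hc := hlin (fun e => (u (xe e) : ℤ) - 1) (by
      intro e
      have h1 := hle (xe e) (hxeA e)
      rw [abs_le]
      push_cast
      constructor <;> omega) (by
      simp only [sub_mul, one_mul]
      rw [Finset.sum_sub_distrib, hsplit]
      push_cast
      rw [sub_self])
    funext x
    unfold ind
    by_cases hx : x ∈ A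
    · rw [if_pos hx]
      have h2 : 0 < (sup x).card := by rw [hA.card x hx]; omega
      obtain ⟨e, he⟩ := Finset.card_pos.1 h2
      have h3 := hc e
      rw [huniq x hx e he] at h3
      omega
    · rw [if_neg hx]
      exact hu x hx

end Pool.Agent.H564R3.RD
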