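import Pool.Agent.H564R3.RD.Tests
import Pool.Agent.H564R3.RD.Pick
import Pool.Agent.H564R3.RD.Weights
import Pool.Agent.H564R3.RD.TspGates

/-! Randomised pure dynamic programs for the travelling salesman problem. -/

set_option autoImplicit false

namespace Pool.Agent.H564R3.RD

open Finset
open Pool.Agent.H564R3.PW (Instr runs exec syms)
open Pool.Agent.H564R3.TS

theorem M_sum {X E : Type} [DecidableEq X] [Fintype E] [DecidableEq E] {sup : X → Finset E}
    {r : ℕ} {A : Finset X} (h : Exact sup r univ A) (K : E → ℕ) :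
    ∑ x ∈ A, ∑ e ∈ sup x, K e = ∑ e, K e := by
  have h1 : A.biUnion sup = univ := by
    rw [eq_univ_iff_forall]
    intro e
    obtain ⟨x, hx, hex⟩ := h.cover e (mem_univ e)
    exact mem_biUnion.2 ⟨x, hx, hex⟩
  rw [← h1, sum_biUnion]
  intro x hx y hy hxy
  exact h.disj x hx y hy hxy

/-- the length of a tour with the set `A` of arcs -/
theorem M_len {n : ℕ} (f : Equiv.Perm (Fin (n + 2))) (d : Fin (n + 2) × Fin (n + 2) → ℕ) :
    len d f = ∑ x ∈ arcs f, d x := by
  rw [(tsp_len f d).2]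
  rfl

theorem random_tsp {n : ℕ} {ρ : Type} [DecidableEq ρ] {Λ : Type} [Fintype Λ] (e : ℝ)
    (q : Λ → ℝ)
    (p : Λ → List (Instr (Tropical (WithTop ℝ)) (Fin (n + 2) × Fin (n + 2)) ρ)) (o : ρ)
    (h : RandomTSP e q p o) (T : ℕ) (hT : ∀ l, (p l).length ≤ T) (hn : 2 ≤ n) :
    (1 - 2 * e) * 2 ^ (n + 1) ≤ ((n + 1) * (n + 2) * T : ℝ) := by
  classical
  obtain ⟨hq, hsum, hcor⟩ := h
  obtain ⟨K, hK1, hK2⟩ := weights (tsup (n := n)) 2 (by norm_num)
  choose t₀ ht₀ using fun l => tests (p l) o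
  obtain ⟨t, ht⟩ : ∃ t : ℕ, ∀ l, t₀ l ≤ t := ⟨univ.sup t₀, fun l => le_sup (mem_univ l)⟩
  set κ : Fin (n + 2) × Fin (n + 2) → ℕ := fun x => ∑ e ∈ tsup x, K e with hκ
  set W : ℕ := ∑ e, K e with hW
  set κA : Finset (Fin (n + 2) × Fin (n + 2)) → Fin (n + 2) × Fin (n + 2) → ℕ :=
    fun A x => if x ∈ A then κ x else W + 1 with hκA
  set F : Finset (Finset (Fin (n + 2) × Fin (n + 2))) := (tours n).image arcs with hF
  have hFpos : n.factorial ≤ F.card := tsp_card n
  -- the tours have length `t * W` in the first test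
  have hlen1 : ∀ f ∈ tours n, len (fun x => t * κ x) f = t * W := by
    intro f hf
    rw [M_len, ← mul_sum, hκ, M_sum (tsp_exact hf)]
  have h1 : ∀ l, Correct (p l) o (fun x => t * κ x) →
      ∀ u ∈ syms (p l) o, W ≤ ∑ x, u x * κ x := by
    rintro l ⟨f, hf, _, hv⟩
    refine (ht₀ l t (ht l) κ W).1 ?_
    rw [hv, hlen1 f hf]
  have h2 : ∀ l, ∀ A ∈ F, Correct (p l) o (fun x => t * κ x) →
      Correct (p l) o (fun x => t * κA A x) → ind A ∈ syms (p l) o := by
    intro l A hA hc1 hc2
    rw [hF, mem_image] at hA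
    obtain ⟨g, hg, rfl⟩ := hA
    obtain ⟨f, hf, hmin, hv⟩ := hc2
    have hlg : len (fun x => t * κA (arcs g) x) g = t * W := by
      rw [M_len, ← mul_sum]
      congr 1
      rw [hW, ← M_sum (tsp_exact hg) K]
      refine sum_congr rfl fun x hx => ?_
      rw [hκA]
      simp only [if_pos hx]
      rfl
    obtain ⟨u, hu, hle⟩ := (ht₀ l t (ht l) (κA (arcs g)) W).2 (by
      rw [hv]
      have := hmin g hg
      rw [hlg] at this
      exact_mod_cast this)
    have hge := h1 l hc1 u hu
    have hoff : ∀ x, x ∉ arcs g → u x = 0 := by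
      intro x hx
      by_contra hux
      have h3 : u x * κA (arcs g) x ≤ ∑ x, u x * κA (arcs g) x :=
        single_le_sum (f := fun x => u x * κA (arcs g) x) (fun _ _ => Nat.zero_le _) (mem_univ x)
      have h4 : κA (arcs g) x = W + 1 := by
        rw [hκA]
        simp only [if_neg hx]
      rw [h4] at h3
      have h5 : 1 * (W + 1) ≤ u x * (W + 1) := Nat.mul_le_mul_right _ (Nat.pos_of_ne_zero hux)
      omega
    have heq : ∑ x, u x * κA (arcs g) x = ∑ x, u x * κ x := by
      refine sum_congr rfl fun x _ => ?_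
      by_cases hx : x ∈ arcs g
      · rw [hκA]
        simp only [if_pos hx]
      · rw [hoff x hx, zero_mul, zero_mul]
    rw [heq] at hle
    have h6 := hK2 (arcs g) (tsp_exact hg) u hoff (le_antisymm hle hge)
    rw [← h6]
    exact hu
  obtain ⟨l, hl⟩ := pick q hq hsum e F (fun l => Correct (p l) o (fun x => t * κ x))
    (fun l A => Correct (p l) o (fun x => t * κA A x)) (by
      have := hcor (fun x => t * κ x)
      convert this using 3) (by
      intro A _
      have := hcor (fun x => t * κA A x)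
      convert this using 3)
  rcases le_or_gt (1 - 2 * e) 0 with he | he
  · refine (mul_nonpos_of_nonpos_of_nonneg he (by positivity)).trans (by positivity)
  · set F' := F.filter (fun A => Correct (p l) o (fun x => t * κ x) ∧
      Correct (p l) o (fun x => t * κA A x)) with hF'
    have hFr : (n.factorial : ℝ) ≤ (F.card : ℝ) := by exact_mod_cast hFpos
    have hfac : (0 : ℝ) < (n.factorial : ℝ) := by exact_mod_cast Nat.factorial_pos n
    have hcard : (1 - 2 * e) * (n.factorial : ℝ) ≤ (F'.card : ℝ) :=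
      (mul_le_mul_of_nonneg_left hFr he.le).trans hl
    have hne : 0 < F'.card := by
      have : (0 : ℝ) < (F'.card : ℝ) := lt_of_lt_of_le (mul_pos he hfac) hcard
      exact_mod_cast this
    obtain ⟨A₀, hA₀⟩ := card_pos.1 hne
    have hG := (mem_filter.1 hA₀).2.1
    have hg := tsp_gates (p l) o K hK1 (h1 l hG) F' (filter_subset _ _) (by
      intro A hA
      rw [hF', mem_filter] at hA
      exact h2 l A hA.1 hG hA.2.2) hn
    have hg2 : 2 ^ (n + 1) * F'.card ≤ T * ((n + 2) * (n + 1).factorial) :=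
      hg.trans (Nat.mul_le_mul_right _ (hT l))
    have hg3 : (2 : ℝ) ^ (n + 1) * (F'.card : ℝ) ≤
        (T : ℝ) * (((n : ℝ) + 2) * (((n : ℝ) + 1) * (n.factorial : ℝ))) := by
      have := hg2
      rw [Nat.factorial_succ] at this
      exact_mod_cast this
    have hfin : ((1 - 2 * e) * 2 ^ (n + 1)) * (n.factorial : ℝ) ≤
        ((n + 1) * (n + 2) * T : ℝ) * (n.factorial : ℝ) := by
      calc ((1 - 2 * e) * 2 ^ (n + 1)) * (n.factorial : ℝ)
          = 2 ^ (n + 1) * ((1 - 2 * e) * (n.factorial : ℝ)) := by ring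
        _ ≤ 2 ^ (n + 1) * (F'.card : ℝ) := mul_le_mul_of_nonneg_left hcard (by positivity)
        _ ≤ _ := hg3
        _ = _ := by ring
    exact le_of_mul_le_mul_right hfin hfac

end Pool.Agent.H564R3.RD
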