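import Pool.Agent.H564R3.RD.Defs

/-! Stubs (statements only): every theorem goes to its own file, see `h564j_tasks`. -/

set_option autoImplicit false

namespace Pool.Agent.H564R3.RD

open Finset
open Pool.Agent.H564R3.PW (Instr runs exec syms)
open Pool.Agent.H564R3.TS

/-! ### A (Tests.lean) -/

theorem tests {X ρ : Type} [Fintype X] [DecidableEq X] [DecidableEq ρ]
    (p : List (Instr (Tropical (WithTop ℝ)) X ρ)) (o : ρ) :
    ∃ t₀ : ℕ, ∀ t : ℕ, t₀ ≤ t → ∀ (κ : X → ℕ) (W : ℕ),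
      ((((t * W : ℕ) : ℝ) : WithTop ℝ) ≤
          Tropical.untrop (exec (fun x => Tropical.trop (((t * κ x : ℕ) : ℝ) : WithTop ℝ)) p o) →
        ∀ u ∈ syms p o, W ≤ ∑ x, u x * κ x) ∧
      (Tropical.untrop (exec (fun x => Tropical.trop (((t * κ x : ℕ) : ℝ) : WithTop ℝ)) p o) ≤
          (((t * W : ℕ) : ℝ) : WithTop ℝ) →
        ∃ u ∈ syms p o, ∑ x, u x * κ x ≤ W) := by
  sorry

/-! ### B (Pick.lean) -/

open Classical in
theorem pick {Λ Ω : Type} [Fintype Λ] (q : Λ → ℝ) (hq : ∀ l, 0 ≤ q l) (hsum : ∑ l, q l = 1)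
    (e : ℝ) (F : Finset Ω) (G : Λ → Prop) (H : Λ → Ω → Prop)
    (hG : 1 - e ≤ ∑ l, if G l then q l else 0)
    (hH : ∀ A ∈ F, 1 - e ≤ ∑ l, if H l A then q l else 0) :
    ∃ l, (1 - 2 * e) * (F.card : ℝ) ≤ ((F.filter (fun A => G l ∧ H l A)).card : ℝ) := by
  sorry

/-! ### C (Digits.lean) -/

theorem digits (M D : ℕ) : ∃ (K : Fin M → ℕ) (b : ℕ), 1 ≤ b ∧ (∀ i, b ≤ K i) ∧
    ∑ i, K i < (M + 1) * b ∧
    ∀ c : Fin M → ℤ, (∀ i, |c i| ≤ (D : ℤ)) → ∑ i, c i * (K i : ℤ) = 0 → ∀ i, c i = 0 := by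
  sorry

/-! ### D (Weights.lean; uses C) -/

theorem weights {X E : Type} [Fintype X] [DecidableEq X] [Fintype E] [DecidableEq E]
    (sup : X → Finset E) (r : ℕ) (hr : 1 ≤ r) :
    ∃ K : E → ℕ, (∀ P P' : Finset E, ∑ e ∈ P, K e = ∑ e ∈ P', K e → P = P') ∧
      ∀ A : Finset X, Exact sup r univ A → ∀ u : X → ℕ, (∀ x, x ∉ A → u x = 0) →
        ∑ x, u x * (∑ e ∈ sup x, K e) = ∑ e, K e → u = ind A := by
  sorry

/-! ### F (TspGates.lean; uses EU.Gates, TS.Tsp and G) -/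

theorem tsp_gates {n : ℕ} {R ρ : Type} [Zero R] [DecidableEq ρ]
    (p : List (Instr R (Fin (n + 2) × Fin (n + 2)) ρ)) (o : ρ)
    (K : Fin (n + 1) ⊕ Fin (n + 1) → ℕ)
    (hK : ∀ P P' : Finset (Fin (n + 1) ⊕ Fin (n + 1)), ∑ e ∈ P, K e = ∑ e ∈ P', K e → P = P')
    (hbal : ∀ u ∈ syms p o, ∑ e, K e ≤ ∑ x, u x * (∑ e ∈ tsup x, K e))
    (F : Finset (Finset (Fin (n + 2) × Fin (n + 2)))) (hF : F ⊆ (tours n).image arcs)
    (hmem : ∀ A ∈ F, ind A ∈ syms p o) (hn : 2 ≤ n) :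
    2 ^ (n + 1) * F.card ≤ p.length * ((n + 2) * (n + 1).factorial) := by
  sorry

/-! ### G (Fact.lean) -/

theorem fact3 (N a b c : ℕ) (h : a + b + c = N) (ha : 2 * a ≤ N + 1) (hb : 2 * b ≤ N + 1)
    (hc : 2 * c ≤ N + 1) :
    2 ^ N * (a.factorial * b.factorial * c.factorial) ≤ (N + 1) * N.factorial := by
  sorry

/-! ### M (Main.lean) -/

theorem random_tsp {n : ℕ} {ρ : Type} [DecidableEq ρ] {Λ : Type} [Fintype Λ] (e : ℝ)
    (q : Λ → ℝ)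
    (p : Λ → List (Instr (Tropical (WithTop ℝ)) (Fin (n + 2) × Fin (n + 2)) ρ)) (o : ρ)
    (h : RandomTSP e q p o) (T : ℕ) (hT : ∀ l, (p l).length ≤ T) (hn : 2 ≤ n) :
    (1 - 2 * e) * 2 ^ (n + 1) ≤ ((n + 1) * (n + 2) * T : ℝ) := by
  sorry

end Pool.Agent.H564R3.RD
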